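import Pool.Agent.H91.Levy2

set_option autoImplicit false

open H91.Levy2 in
theorem Pool.Agent.Results.MP_89b5f7_an.Fails.result :
    ∃ x : ℕ → ℂ,
    (∃ s, Filter.Tendsto (fun N => ∑ n ∈ Finset.range N, x n) Filter.atTop (nhds s)) ∧
    ¬ Summable (fun n => ‖x n‖) ∧ H91.Levy2.SR x = Set.univ ∧ H91.Levy2.Ach x = Set.univ ∧
    (H91.Levy2.Lev x).ncard = 2 ∧
    ∃ σ : Equiv.Perm ℕ, H91.Levy2.Ach (fun n => x (σ n)) ≠ Set.univ :=
  main
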